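import Pool.Agent.Work.MP_db9399_dp.Interface

/-!
# TYZZ: types of the edges inside `Z` (owner helper4)

One application of `round` to the pairs (edge, type): classes are the edges (so every edge gets
exactly one type), rows are the pairs (vertex, type).
-/

set_option autoImplicit false

namespace Pool.Agent.Work.MP_db9399_dp.helper4

open Finset Classical
open Pool.Agent.Work.MP_db9399_all (nb)
open Pool.Agent.Work.MP_db9399_bp_helper22 (round)
open Pool.Agent.Work.MP_db9399_dp

universe u

theorem stmt_TYZZ : Stmt_TYZZ.{u} := by
  intro V _ 𝒯 _ _ F Z ρ hρ hρ1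
  set ES : Finset (Sym2 V) := univ.filter
    (fun e => ∃ v w, e = s(v, w) ∧ F.Adj v w ∧ v ∈ Z ∧ w ∈ Z) with hES
  set M : V × 𝒯 → Sym2 V × 𝒯 → ℝ :=
    fun r e => if r.2 = e.2 ∧ r.1 ∈ e.1 ∧ e.1 ∈ ES then 1 else 0 with hM
  have hρle : ∀ T, ρ T ≤ 1 := by
    intro T
    rw [← hρ1]
    exact single_le_sum (fun i _ => (hρ i).le) (mem_univ T)
  have hcol : ∀ e, ∑ r, |M r e| ≤ 2 := by
    intro e
    have h1 : ∑ r : V × 𝒯, |M r e| ≤ ∑ v : V, if v ∈ e.1 then (1 : ℝ) else 0 := by
      rw [Fintype.sum_prod_type]
      apply sum_le_sum
      intro v _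
      split_ifs with hv
      · calc ∑ T : 𝒯, |M (v, T) e| ≤ ∑ T : 𝒯, if T = e.2 then (1 : ℝ) else 0 := by
              apply sum_le_sum
              intro T _
              simp only [hM]
              by_cases hT : T = e.2
              · rw [if_pos hT]
                split_ifs <;> simp
              · rw [if_neg hT, if_neg (fun h => hT h.1)]
                simp
          _ = 1 := by rw [sum_ite_eq' univ e.2]; simp
      · apply le_of_eq
        apply sum_eq_zero
        intro T _
        simp only [hM]
        rw [if_neg (fun h => hv h.2.1)]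
        simp
    refine h1.trans ?_
    rw [← sum_filter, sum_const, nsmul_eq_mul, mul_one]
    have h2 : (univ.filter (fun v => v ∈ e.1)).card ≤ 2 := by
      obtain ⟨e1, e2⟩ := e
      induction e1 using Sym2.ind with
      | _ a b =>
        calc (univ.filter (fun v => v ∈ s(a, b))).card ≤ ({a, b} : Finset V).card := by
              apply card_le_card
              intro v hv
              simp only [mem_filter, mem_univ, true_and, Sym2.mem_iff] at hv
              simp only [mem_insert, mem_singleton]
              exact hv
          _ ≤ 2 := card_le_two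
    exact_mod_cast h2
  obtain ⟨z, hz01, -, hrow, hcls⟩ := round M 2 (by norm_num) hcol
    (fun e : Sym2 V × 𝒯 => some e.1) (fun e => ρ e.2) (fun e => ⟨(hρ e.2).le, hρle e.2⟩)
  have hone : ∀ e : Sym2 V, (univ.filter (fun T => z (e, T) = 1)).card = 1 := by
    intro e
    have h1 := hcls e
    have h2 : ∑ a ∈ univ.filter (fun a : Sym2 V × 𝒯 => some a.1 = some e), (z a - ρ a.2) =
        ((univ.filter (fun T => z (e, T) = 1)).card : ℝ) - 1 := by
      rw [sum_filter, Fintype.sum_prod_type]
      rw [sum_eq_single e]
      · simp only [if_true]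
        rw [sum_sub_distrib, hρ1, card_filter]
        push_cast
        congr 1
        apply sum_congr rfl
        intro T _
        rcases hz01 (e, T) with h | h
        · rw [h]; simp
        · rw [h]; simp
      · intro b _ hb
        apply sum_eq_zero
        intro T _
        rw [if_neg]
        intro h
        exact hb (Option.some_injective _ h)
      · intro h
        exact absurd (mem_univ e) h
    rw [h2, abs_lt] at h1
    have h3 : (0 : ℝ) < ((univ.filter (fun T => z (e, T) = 1)).card : ℝ) := by linarith
    have h4 : ((univ.filter (fun T => z (e, T) = 1)).card : ℝ) < 2 := by linarith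
    have h5 : 0 < (univ.filter (fun T => z (e, T) = 1)).card := by exact_mod_cast h3
    have h6 : (univ.filter (fun T => z (e, T) = 1)).card < 2 := by exact_mod_cast h4
    omega
  choose c hc using fun e => card_eq_one.1 (hone e)
  have hzc : ∀ e T, z (e, T) = if c e = T then 1 else 0 := by
    intro e T
    have h1 : z (e, T) = 1 ↔ T = c e := by
      have := hc e
      constructor
      · intro h
        have h2 : T ∈ univ.filter (fun T => z (e, T) = 1) := by simp [h]
        rw [this, mem_singleton] at h2
        exact h2
      · intro h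
        have h2 : T ∈ univ.filter (fun T => z (e, T) = 1) := by
          rw [this, mem_singleton]; exact h
        exact (mem_filter.1 h2).2
    split_ifs with h
    · exact h1.2 h.symm
    · rcases hz01 (e, T) with h' | h'
      · exact h'
      · exact absurd (h1.1 h').symm h
  refine ⟨fun v w => c s(v, w), ?_, ?_⟩
  · intro v w
    change c s(v, w) = c s(w, v)
    rw [Sym2.eq_swap]
  · intro z0 hz0 T
    set S : Finset V := (nb F z0).filter (fun w => w ∈ Z) with hS
    have h1 := hrow (z0, T)
    have h2 : ∑ e : Sym2 V × 𝒯, M (z0, T) e * (z e - ρ e.2) =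
        ((S.filter (fun w => c s(z0, w) = T)).card : ℝ) - ρ T * S.card := by
      rw [Fintype.sum_prod_type]
      have h3 : ∀ e : Sym2 V, ∑ T' : 𝒯, M (z0, T) (e, T') * (z (e, T') - ρ T') =
          if e ∈ S.image (fun w => s(z0, w)) then (if c e = T then 1 else 0) - ρ T else 0 := by
        intro e
        rw [sum_eq_single T]
        · have h4 : (z0 ∈ e ∧ e ∈ ES) ↔ e ∈ S.image (fun w => s(z0, w)) := by
            simp only [hES, mem_filter, mem_univ, true_and, mem_image, hS, nb]
            constructor
            · rintro ⟨h5, v, w, rfl, h6, h7, h8⟩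
              rcases Sym2.mem_iff.1 h5 with h | h
              · subst h
                exact ⟨w, ⟨h6, h8⟩, rfl⟩
              · subst h
                exact ⟨v, ⟨h6.symm, h7⟩, Sym2.eq_swap⟩
            · rintro ⟨w, ⟨h6, h8⟩, rfl⟩
              exact ⟨Sym2.mem_mk_left _ _, z0, w, rfl, h6, hz0, h8⟩
          simp only [hM, true_and]
          by_cases h5 : e ∈ S.image (fun w => s(z0, w))
          · rw [if_pos (h4.2 h5), if_pos h5, one_mul, hzc]
          · rw [if_neg (fun h => h5 (h4.1 h)), if_neg h5, zero_mul]
        · intro T' _ hT'
          simp only [hM]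
          rw [if_neg (fun h => hT' h.1.symm), zero_mul]
        · intro h
          exact absurd (mem_univ T) h
      rw [sum_congr rfl (fun e _ => h3 e), ← sum_filter]
      have h6 : (univ.filter (fun e => e ∈ S.image (fun w => s(z0, w)))) =
          S.image (fun w => s(z0, w)) := by
        ext e
        simp
      have h8 : ((S.filter (fun w => c s(z0, w) = T)).card : ℝ) =
          ∑ w ∈ S, if c s(z0, w) = T then (1 : ℝ) else 0 := by
        rw [← sum_filter, sum_const, nsmul_eq_mul, mul_one]
      rw [h6, sum_image, sum_sub_distrib, sum_const, nsmul_eq_mul, h8]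
      · ring
      · intro a _ b _ hab
        exact Sym2.congr_right.1 hab
    rw [h2] at h1
    have h7 : (1 : ℝ) ≤ Fintype.card 𝒯 := by
      have : 0 < Fintype.card 𝒯 := Fintype.card_pos
      exact_mod_cast this
    linarith

end Pool.Agent.Work.MP_db9399_dp.helper4
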